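import Mathlib
import Pool.Agent.Helper36.Disk.Defs

/-!
# MP_3836fe_co: packet A (from the four-dimensional energy to the planar area)
-/

open MeasureTheory Set Metric Filter Topology Pool.Agent.Helper36.Disk

namespace Pool.Agent.Helper33.Disk

/-- `V4` as `ℂ × ℂ`. -/
noncomputable def L : V4 ≃L[ℝ] ℂ × ℂ :=
  LinearEquiv.toContinuousLinearEquiv
    { toFun := fun y => (⟨y 0, y 1⟩, ⟨y 2, y 3⟩)
      invFun := fun v => !₂[v.1.re, v.1.im, v.2.re, v.2.im]
      map_add' := fun x y => by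
        refine Prod.ext (Complex.ext ?_ ?_) (Complex.ext ?_ ?_) <;> simp
      map_smul' := fun c y => by
        refine Prod.ext (Complex.ext ?_ ?_) (Complex.ext ?_ ?_) <;> simp
      left_inv := fun y => by
        ext i
        fin_cases i <;> simp
      right_inv := fun v => by
        ext <;> simp }

theorem L_symm_apply (v : ℂ × ℂ) : L.symm v = !₂[v.1.re, v.1.im, v.2.re, v.2.im] := rfl

/-- The embedding of the plane. -/
noncomputable def iot (z : ℂ) : V4 := L.symm (z, 0)

theorem norm_sq_L_symm (v : ℂ × ℂ) : ‖L.symm v‖ ^ 2 = ‖v.1‖ ^ 2 + ‖v.2‖ ^ 2 := by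
  rw [L_symm_apply, EuclideanSpace.norm_sq_eq, Complex.sq_norm, Complex.sq_norm,
    Complex.normSq_apply, Complex.normSq_apply]
  simp [Fin.sum_univ_four]
  ring

theorem norm_sub_iot (v : ℂ × ℂ) (z : ℂ) :
    ‖L.symm v - iot z‖ ^ 2 = ‖v.1 - z‖ ^ 2 + ‖v.2‖ ^ 2 := by
  rw [iot, ← map_sub, norm_sq_L_symm]
  simp

theorem dist_iot (z w : ℂ) : dist (iot z) (iot w) = dist z w := by
  rw [dist_eq_norm, dist_eq_norm, iot, iot, ← map_sub]
  have := norm_sq_L_symm ((z, (0 : ℂ)) - (w, 0))
  simp only [Prod.mk_sub_mk, sub_zero, norm_zero, ne_eq, OfNat.ofNat_ne_zero, not_false_eq_true,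
    zero_pow, add_zero] at this
  have h2 := (sq_eq_sq₀ (norm_nonneg _) (norm_nonneg _)).1 this
  simpa using h2

/-- squared distance in the plane -/
noncomputable def mp (p : Fin 4 → ℂ) (z : ℂ) : ℝ := ⨅ i, ‖z - p i‖ ^ 2

theorem bdd (g : Fin 4 → ℝ) : BddBelow (range g) := (finite_range g).bddBelow

theorem msq_iot (p : Fin 4 → ℂ) (v : ℂ × ℂ) :
    msq (fun i => iot (p i)) (L.symm v) = mp p v.1 + ‖v.2‖ ^ 2 := by
  rw [msq, mp, ciInf_add (bdd _)]
  simp only [norm_sub_iot]

theorem mp_nonneg (p : Fin 4 → ℂ) (z : ℂ) : 0 ≤ mp p z := le_ciInf fun i => by positivity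

theorem continuous_mp (p : Fin 4 → ℂ) : Continuous (mp p) := by
  have h : mp p = fun z => (Finset.univ : Finset (Fin 4)).inf' Finset.univ_nonempty
      (fun i => ‖z - p i‖ ^ 2) := by
    funext z
    rw [mp, Finset.inf'_univ_eq_ciInf]
  rw [h]
  exact Continuous.finset_inf'_apply _ fun i _ => by fun_prop

theorem mp_le_iff (p : Fin 4 → ℂ) (z : ℂ) (s : ℝ) : mp p z ≤ s ↔ ∃ i, ‖z - p i‖ ^ 2 ≤ s := by
  constructor
  · intro h
    obtain ⟨i, hi⟩ := exists_eq_ciInf_of_finite (f := fun i => ‖z - p i‖ ^ 2)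
    exact ⟨i, by rw [hi]; exact h⟩
  · rintro ⟨i, hi⟩
    exact (ciInf_le (bdd _) i).trans hi

theorem setOf_mp_le (p : Fin 4 → ℂ) {r : ℝ} (hr : 0 ≤ r) :
    {z | mp p z ≤ r ^ 2} = ⋃ i, closedBall (p i) r := by
  ext z
  simp only [mem_ofPred_eq, mp_le_iff, mem_iUnion, mem_closedBall, dist_eq_norm]
  exact exists_congr fun i => sq_le_sq₀ (norm_nonneg _) hr

theorem bounded_mp_le (p : Fin 4 → ℂ) (s : ℝ) : Bornology.IsBounded {z | mp p z ≤ s} := by
  have h1 : {z | mp p z ≤ s} ⊆ {z | mp p z ≤ (|s| + 1) ^ 2} := by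
    intro z hz
    simp only [mem_ofPred_eq] at hz ⊢
    nlinarith [abs_nonneg s, le_abs_self s, sq_nonneg (|s|)]
  refine Bornology.IsBounded.subset ?_ h1
  rw [setOf_mp_le p (by positivity)]
  exact Bornology.isBounded_iUnion.2 fun i => isBounded_closedBall

/-- polar coordinates in the plane, in terms of the squared norm -/
theorem integral_norm_sq (g : ℝ → ℝ) : ∫ w : ℂ, g (‖w‖ ^ 2) = Real.pi * ∫ u in Ioi (0 : ℝ), g u := by
  have h1 := integral_fun_norm_addHaar (volume : Measure ℂ) (fun r => g (r ^ 2))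
  rw [h1, Complex.finrank_real_complex]
  have h2 : (volume : Measure ℂ).real (ball 0 1) = Real.pi := by
    rw [measureReal_def, Complex.volume_ball]
    simp
  rw [h2, ← integral_comp_rpow_Ioi_of_pos (g := g) (p := 2) (by norm_num)]
  have h3 : ∀ x ∈ Ioi (0 : ℝ), ((2 : ℝ) * x ^ ((2 : ℝ) - 1)) • g (x ^ (2 : ℝ)) =
      2 * (x ^ (2 - 1) • g (x ^ 2)) := by
    intro x hx
    have e1 : (2 : ℝ) - 1 = 1 := by norm_num
    rw [e1, Real.rpow_one, Real.rpow_two]
    simp [mul_assoc]
  rw [setIntegral_congr_fun measurableSet_Ioi h3, integral_const_mul]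
  simp only [smul_eq_mul, nsmul_eq_mul, Nat.cast_ofNat]
  ring

instance isAddHaar_prod : (volume : Measure (ℂ × ℂ)).IsAddHaarMeasure := by
  rw [Measure.volume_eq_prod]
  exact Measure.prod.instIsAddHaarMeasure volume volume

/-- the scalar factor between the two Haar measures -/
noncomputable def cf : NNReal :=
  Measure.addHaarScalarFactor (Measure.map L (volume : Measure V4)) (volume : Measure (ℂ × ℂ))

instance isAddHaar_map : (Measure.map L (volume : Measure V4)).IsAddHaarMeasure :=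
  L.isAddHaarMeasure_map volume

theorem cf_pos : 0 < cf := Measure.addHaarScalarFactor_pos_of_isAddHaarMeasure _ _

theorem map_L : Measure.map L (volume : Measure V4) = cf • (volume : Measure (ℂ × ℂ)) :=
  Measure.isAddLeftInvariant_eq_smul _ _

theorem En_eq_prod (f : ℝ → ℝ) (x : Fin 4 → V4) :
    En f x = cf * ∫ v : ℂ × ℂ, f (msq x (L.symm v)) := by
  have h1 : ∫ v, f (msq x (L.symm v)) ∂(Measure.map L (volume : Measure V4)) = En f x := by
    have := integral_map_equiv (μ := (volume : Measure V4)) L.toHomeomorph.toMeasurableEquiv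
      (fun v => f (msq x (L.symm v)))
    rw [En]
    refine Eq.trans ?_ (this.trans ?_)
    · rfl
    · refine integral_congr_ae (Eventually.of_forall fun y => ?_)
      simp
  rw [← h1, map_L]
  rw [integral_smul_nnreal_measure]
  rfl

theorem integrable_prod (f : ℝ → ℝ) (hf : Continuous f) (hfc : HasCompactSupport f)
    (p : Fin 4 → ℂ) : Integrable (fun v : ℂ × ℂ => f (mp p v.1 + ‖v.2‖ ^ 2)) := by
  have hcont : Continuous (fun v : ℂ × ℂ => f (mp p v.1 + ‖v.2‖ ^ 2)) :=
    hf.comp (((continuous_mp p).comp continuous_fst).add (by fun_prop))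
  refine hcont.integrable_of_hasCompactSupport ?_
  obtain ⟨R, hR⟩ := hfc.isCompact.isBounded.subset_closedBall (0 : ℝ)
  have hfz : ∀ m, R < m → f m = 0 := by
    intro m hm
    by_contra hne
    have h1 : m ∈ tsupport f := subset_tsupport f hne
    have h2 := hR h1
    rw [mem_closedBall, Real.dist_eq, sub_zero] at h2
    linarith [le_abs_self m]
  have hK1 : IsCompact {z | mp p z ≤ R} :=
    Metric.isCompact_of_isClosed_isBounded (isClosed_le (continuous_mp p) continuous_const)
      (bounded_mp_le p R)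
  refine HasCompactSupport.intro (hK1.prod (isCompact_closedBall (0 : ℂ) (|R| + 1))) ?_
  rintro ⟨z, w⟩ hzw
  apply hfz
  rw [mem_prod, not_and_or] at hzw
  simp only [mem_ofPred_eq, mem_closedBall, dist_zero_right, not_le] at hzw
  rcases hzw with h | h
  · have : 0 ≤ ‖w‖ ^ 2 := by positivity
    simp only
    linarith
  · have h0 := mp_nonneg p z
    simp only
    nlinarith [abs_nonneg R, le_abs_self R, norm_nonneg w]

theorem En_eq (f : ℝ → ℝ) (hf : Continuous f) (hfc : HasCompactSupport f) (p : Fin 4 → ℂ) :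
    En f (fun i => iot (p i)) =
      cf * (Real.pi * ∫ z : ℂ, ∫ u in Ioi (0 : ℝ), f (mp p z + u)) := by
  rw [En_eq_prod]
  simp only [msq_iot]
  rw [Measure.volume_eq_prod, integral_prod _ (by
    rw [← Measure.volume_eq_prod]; exact integrable_prod f hf hfc p)]
  simp only
  have : ∀ z : ℂ, ∫ w : ℂ, f (mp p z + ‖w‖ ^ 2) = Real.pi * ∫ u in Ioi (0 : ℝ), f (mp p z + u) :=
    fun z => integral_norm_sq (fun u => f (mp p z + u))
  simp only [this]
  rw [integral_const_mul]

/-! ### The bumps -/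

/-- bumps supported in `(0, 2/(n+1))` -/
noncomputable def bp (n : ℕ) : ContDiffBump (1 / ((n : ℝ) + 1)) where
  rIn := 1 / (2 * ((n : ℝ) + 1))
  rOut := 1 / ((n : ℝ) + 1)
  rIn_pos := by positivity
  rIn_lt_rOut := by
    have : (0 : ℝ) < (n : ℝ) + 1 := by positivity
    apply one_div_lt_one_div_of_lt this
    linarith

/-- normed bumps -/
noncomputable def chi (n : ℕ) : ℝ → ℝ := (bp n).normed volume

theorem chi_eq_zero {n : ℕ} {u : ℝ} (h : u ≤ 0 ∨ 2 / ((n : ℝ) + 1) ≤ u) : chi n u = 0 := by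
  by_contra hne
  have h1 : u ∈ Function.support (chi n) := hne
  rw [chi, ContDiffBump.support_normed_eq, mem_ball, Real.dist_eq, abs_lt] at h1
  obtain ⟨h2, h3⟩ := h1
  have e : (bp n).rOut = 1 / ((n : ℝ) + 1) := rfl
  rw [e] at h2 h3
  have e2 : 2 / ((n : ℝ) + 1) = 1 / ((n : ℝ) + 1) + 1 / ((n : ℝ) + 1) := by ring
  rw [e2] at h
  rcases h with h | h <;> linarith

theorem chi_nonneg (n : ℕ) (u : ℝ) : 0 ≤ chi n u := (bp n).nonneg_normed u

theorem chi_continuous (n : ℕ) : Continuous (chi n) := (bp n).continuous_normed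

theorem chi_integral (n : ℕ) : ∫ u, chi n u = 1 := (bp n).integral_normed

theorem chi_integrable (n : ℕ) : Integrable (chi n) := (bp n).integrable_normed

/-- the tail integral -/
noncomputable def Gt (n : ℕ) (a : ℝ) : ℝ := ∫ u in Ioi (0 : ℝ), chi n (a + u)

theorem chi_shift_integrable (n : ℕ) (a : ℝ) : Integrable (fun u => chi n (a + u)) :=
  (chi_integrable n).comp_add_left a

theorem Gt_nonneg (n : ℕ) (a : ℝ) : 0 ≤ Gt n a := integral_nonneg fun u => chi_nonneg n _

theorem Gt_le_one (n : ℕ) (a : ℝ) : Gt n a ≤ 1 := by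
  rw [← chi_integral n, ← integral_add_left_eq_self (chi n) a]
  exact setIntegral_le_integral (chi_shift_integrable n a)
    (Eventually.of_forall fun u => chi_nonneg n _)

theorem Gt_eq_one {n : ℕ} {a : ℝ} (ha : a ≤ 0) : Gt n a = 1 := by
  rw [← chi_integral n, ← integral_add_left_eq_self (chi n) a]
  refine setIntegral_eq_integral_of_forall_compl_eq_zero fun u hu => ?_
  rw [mem_Ioi, not_lt] at hu
  exact chi_eq_zero (Or.inl (by linarith))

theorem Gt_eq_zero {n : ℕ} {a : ℝ} (ha : 2 / ((n : ℝ) + 1) ≤ a) : Gt n a = 0 := by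
  refine setIntegral_eq_zero_of_forall_eq_zero fun u hu => ?_
  rw [mem_Ioi] at hu
  exact chi_eq_zero (Or.inr (by linarith))

/-- the test functions -/
noncomputable def ft (s₁ s₂ : ℝ) (n : ℕ) : ℝ → ℝ := fun m => chi n (m - s₂) - chi n (m - s₁)

theorem ft_isTest {s₁ s₂ : ℝ} (h : s₁ ≤ s₂) (n : ℕ) : IsTest (ft s₁ s₂ n) :=
  ⟨chi n, s₁, s₂, (bp n).contDiff_normed, (bp n).hasCompactSupport_normed, chi_nonneg n, h, rfl⟩

theorem ft_continuous (s₁ s₂ : ℝ) (n : ℕ) : Continuous (ft s₁ s₂ n) := by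
  have := chi_continuous n
  unfold ft
  fun_prop

theorem ft_compact (s₁ s₂ : ℝ) (n : ℕ) : HasCompactSupport (ft s₁ s₂ n) := by
  refine HasCompactSupport.intro (isCompact_Icc (a := min s₁ s₂) (b := max s₁ s₂ + 2)) ?_
  intro x hx
  rw [mem_Icc, not_and_or, not_le, not_le] at hx
  have e2 : 2 / ((n : ℝ) + 1) ≤ 2 := by
    rw [div_le_iff₀ (by positivity)]
    have : (0 : ℝ) ≤ n := Nat.cast_nonneg n
    linarith
  unfold ft
  rcases hx with h | h
  · have h1 := lt_min_iff.1 h
    rw [chi_eq_zero (Or.inl (by linarith)), chi_eq_zero (Or.inl (by linarith)), sub_zero]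
  · have h1 := le_max_left s₁ s₂
    have h2 := le_max_right s₁ s₂
    rw [chi_eq_zero (Or.inr (by linarith)), chi_eq_zero (Or.inr (by linarith)), sub_zero]

theorem integral_ft (s₁ s₂ : ℝ) (n : ℕ) (m : ℝ) :
    ∫ u in Ioi (0 : ℝ), ft s₁ s₂ n (m + u) = Gt n (m - s₂) - Gt n (m - s₁) := by
  rw [Gt, Gt, ← integral_sub (chi_shift_integrable n _).integrableOn
    (chi_shift_integrable n _).integrableOn]
  refine setIntegral_congr_fun measurableSet_Ioi fun u _ => ?_
  simp only [ft]
  rw [show m + u - s₂ = m - s₂ + u by ring, show m + u - s₁ = m - s₁ + u by ring]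

theorem Gt_tendsto (a : ℝ) :
    Tendsto (fun n => Gt n a) atTop (𝓝 (if a ≤ 0 then 1 else 0)) := by
  by_cases ha : a ≤ 0
  · rw [if_pos ha]
    exact tendsto_const_nhds.congr fun n => (Gt_eq_one ha).symm
  · rw [if_neg ha]
    push Not at ha
    refine tendsto_const_nhds.congr' ?_
    have h1 : Tendsto (fun n : ℕ => 2 / ((n : ℝ) + 1)) atTop (𝓝 0) := by
      have := (tendsto_one_div_add_atTop_nhds_zero_nat (𝕜 := ℝ)).const_mul 2
      rw [mul_zero] at this
      exact this.congr fun n => by ring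
    filter_upwards [(tendsto_order.1 h1).2 a ha] with n hn
    exact (Gt_eq_zero hn.le).symm

theorem integral_ft_tendsto (p : Fin 4 → ℂ) {s₁ s₂ : ℝ} (h : s₁ ≤ s₂) :
    Tendsto (fun n => ∫ z : ℂ, ∫ u in Ioi (0 : ℝ), ft s₁ s₂ n (mp p z + u)) atTop
      (𝓝 ((volume {z | mp p z ≤ s₂}).toReal - (volume {z | mp p z ≤ s₁}).toReal)) := by
  have hm : ∀ s, MeasurableSet {z | mp p z ≤ s} := fun s =>
    (isClosed_le (continuous_mp p) continuous_const).measurableSet
  have hfin : ∀ s, volume {z | mp p z ≤ s} ≠ ⊤ := fun s => (bounded_mp_le p s).measure_lt_top.ne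
  have hint : ∀ s, Integrable ({z | mp p z ≤ s}.indicator (fun _ => (1 : ℝ))) := fun s =>
    (integrable_indicator_iff (hm s)).2 (integrableOn_const (hfin s))
  have hlim : (volume {z | mp p z ≤ s₂}).toReal - (volume {z | mp p z ≤ s₁}).toReal =
      ∫ z : ℂ, ({z | mp p z ≤ s₂}.indicator (fun _ => (1 : ℝ)) z -
        {z | mp p z ≤ s₁}.indicator (fun _ => (1 : ℝ)) z) := by
    rw [integral_sub (hint s₂) (hint s₁)]
    rw [integral_indicator_const _ (hm _), integral_indicator_const _ (hm _)]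
    simp [measureReal_def]
  rw [hlim]
  refine tendsto_integral_of_dominated_convergence
    ({z | mp p z ≤ s₂ + 2}.indicator (fun _ => (1 : ℝ))) ?_ ?_ ?_ ?_
  · intro n
    have h1 : StronglyMeasurable
        (Function.uncurry fun (z : ℂ) (u : ℝ) => ft s₁ s₂ n (mp p z + u)) := by
      refine Continuous.stronglyMeasurable ?_
      exact (ft_continuous s₁ s₂ n).comp
        (((continuous_mp p).comp continuous_fst).add continuous_snd)
    exact (h1.integral_prod_right (ν := volume.restrict (Ioi (0 : ℝ)))).aestronglyMeasurable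
  · exact hint _
  · intro n
    refine Eventually.of_forall fun z => ?_
    rw [integral_ft, Real.norm_eq_abs]
    by_cases hz : mp p z ≤ s₂ + 2
    · rw [indicator_of_mem (by exact hz), abs_le]
      have h1 := Gt_nonneg n (mp p z - s₂)
      have h2 := Gt_nonneg n (mp p z - s₁)
      have h3 := Gt_le_one n (mp p z - s₂)
      have h4 := Gt_le_one n (mp p z - s₁)
      constructor <;> linarith
    · rw [indicator_of_notMem (by exact hz)]
      push Not at hz
      have e2 : 2 / ((n : ℝ) + 1) ≤ 2 := by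
        rw [div_le_iff₀ (by positivity)]
        have : (0 : ℝ) ≤ n := Nat.cast_nonneg n
        linarith
      rw [Gt_eq_zero (by linarith), Gt_eq_zero (by linarith)]
      simp
  · refine Eventually.of_forall fun z => ?_
    simp only [integral_ft]
    have h1 := (Gt_tendsto (mp p z - s₂)).sub (Gt_tendsto (mp p z - s₁))
    simp only [sub_nonpos] at h1
    simpa only [indicator_apply, mem_ofPred_eq] using h1

theorem statementA (hM : StatementM) : StatementA := by
  intro p q hpq r₁ r₂ hr₁ hr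
  have hs : r₁ ^ 2 ≤ r₂ ^ 2 := by nlinarith
  have har : ∀ (p : Fin 4 → ℂ) (r : ℝ), 0 < r → ar p r = (volume {z | mp p z ≤ r ^ 2}).toReal := by
    intro p r hr
    rw [ar, setOf_mp_le p hr.le]
  rw [har q r₂ (hr₁.trans hr), har q r₁ hr₁, har p r₂ (hr₁.trans hr), har p r₁ hr₁]
  refine le_of_tendsto_of_tendsto' (integral_ft_tendsto q hs) (integral_ft_tendsto p hs) fun n => ?_
  have h1 := hM (ft (r₁ ^ 2) (r₂ ^ 2) n) (ft_isTest hs n) (fun i => iot (p i)) (fun i => iot (q i))
    (fun i j => by rw [dist_iot, dist_iot]; exact hpq i j)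
  rw [En_eq _ (ft_continuous _ _ n) (ft_compact _ _ n),
    En_eq _ (ft_continuous _ _ n) (ft_compact _ _ n)] at h1
  have h2 := le_of_mul_le_mul_left h1 (by exact_mod_cast cf_pos)
  exact le_of_mul_le_mul_left h2 Real.pi_pos

end Pool.Agent.Helper33.Disk
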